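import Mathlib
import Pool.Agent.Results.MP_3e0795_gt.Independence

/-! MP_3e0795_gt, Q1: under diamond every perfectly normal compact space is a clopen subspace of a
perfectly normal compact space that is not hereditarily Grothendieck. -/

set_option autoImplicit false

namespace Pool.Agent.Results.MP_3e0795_gt.ClopenSummands

open Set Topology Filter Independence
open Pool.Agent.Helper391.ForceCH (Om OmegaOnePreserved DiamondHolds)

lemma cc_homeo {A B : Type} [TopologicalSpace A] [TopologicalSpace B] (e : A ≃ₜ B) (S : Set B)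
    (h : CountablyCompactIn S) : CountablyCompactIn (e ⁻¹' S) := by
  intro T hT hi
  obtain ⟨z, hz⟩ := h (e '' T) (image_subset_iff.2 hT) (hi.image e.injective.injOn)
  refine ⟨e.symm z, ?_⟩
  rw [accPt_iff_nhds] at hz ⊢
  intro U hU
  have h1 : e.symm ⁻¹' U ∈ 𝓝 z := e.symm.continuous.continuousAt.preimage_mem_nhds hU
  obtain ⟨y, ⟨hy1, ⟨t, ht, hty⟩⟩, hy3⟩ := hz _ h1
  refine ⟨t, ⟨?_, ht⟩, ?_⟩
  · have h2 : e.symm y ∈ U := hy1
    rw [← hty, e.symm_apply_apply] at h2
    exact h2
  · rintro rfl
    apply hy3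
    rw [← hty, e.apply_symm_apply]

lemma gs_homeo {A B : Type} [TopologicalSpace A] [TopologicalSpace B] (e : A ≃ₜ B)
    (h : GSpace A) : GSpace B := by
  intro S hS
  have h1 := h _ (cc_homeo e S hS)
  have h2 : closure S = e '' closure (e ⁻¹' S) := by
    rw [e.image_closure, image_preimage_eq _ e.surjective]
  rw [h2]
  exact h1.image e.continuous

lemma cp_cont {A B : Type} [TopologicalSpace A] [TopologicalSpace B] (g : A → B)
    (hg : Continuous g) :
    Continuous (fun f : Cp B => (⟨fun a => f.1 (g a), f.2.comp hg⟩ : Cp A)) := by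
  refine Continuous.subtype_mk ?_ _
  refine continuous_pi fun a => ?_
  have h1 : Continuous (fun f : Cp B => f.1) := continuous_subtype_val
  exact (continuous_apply (g a)).comp h1

/-- A homeomorphism induces one of the function spaces. -/
def cpH {A B : Type} [TopologicalSpace A] [TopologicalSpace B] (e : A ≃ₜ B) : Cp B ≃ₜ Cp A where
  toFun f := ⟨fun a => f.1 (e a), f.2.comp e.continuous⟩
  invFun f := ⟨fun b => f.1 (e.symm b), f.2.comp e.symm.continuous⟩
  left_inv f := by
    apply Subtype.ext
    funext b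
    exact congrArg f.1 (e.apply_symm_apply b)
  right_inv f := by
    apply Subtype.ext
    funext a
    exact congrArg f.1 (e.symm_apply_apply a)
  continuous_toFun := cp_cont e e.continuous
  continuous_invFun := cp_cont e.symm e.symm.continuous

lemma gr_homeo {A B : Type} [TopologicalSpace A] [TopologicalSpace B] (e : A ≃ₜ B)
    (h : Grothendieck A) : Grothendieck B := by
  intro Z
  exact gs_homeo ((cpH e).image Z).symm (h _)

section
variable {X Y : Type} [TopologicalSpace X] [TopologicalSpace Y]

lemma pn_sum [PerfectlyNormalSpace X] [PerfectlyNormalSpace Y] [NormalSpace (X ⊕ Y)] :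
    PerfectlyNormalSpace (X ⊕ Y) := by
  refine { closed_gdelta := fun h hh => ?_ }
  have h1 : IsGδ ((Sum.inl : X → X ⊕ Y) ⁻¹' h) :=
    PerfectlyNormalSpace.closed_gdelta (hh.preimage continuous_inl)
  have h2 : IsGδ ((Sum.inr : Y → X ⊕ Y) ⁻¹' h) :=
    PerfectlyNormalSpace.closed_gdelta (hh.preimage continuous_inr)
  obtain ⟨U, hU1, hU2⟩ := isGδ_iff_eq_iInter_nat.1 h1
  obtain ⟨V, hV1, hV2⟩ := isGδ_iff_eq_iInter_nat.1 h2
  refine isGδ_iff_eq_iInter_nat.2 ⟨fun n => {z | Sum.elim (fun x => x ∈ U n) (fun y => y ∈ V n) z},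
    fun n => isOpen_sum_iff.2 ⟨hU1 n, hV1 n⟩, ?_⟩
  ext z
  rcases z with x | y
  · have h3 : Sum.inl x ∈ h ↔ x ∈ ⋂ n, U n := by
      rw [← hU2]
      rfl
    rw [h3, mem_iInter, mem_iInter]
    rfl
  · have h3 : Sum.inr y ∈ h ↔ y ∈ ⋂ n, V n := by
      rw [← hV2]
      rfl
    rw [h3, mem_iInter, mem_iInter]
    rfl

lemma not_hg (h : ¬ HereditarilyGrothendieck X) : ¬ HereditarilyGrothendieck (X ⊕ Y) := by
  intro h1
  exact h fun S => gr_homeo (IsEmbedding.inl.homeomorphImage S).symm (h1 (Sum.inl '' S))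

end

/-- (1) Some forcing notion preserves `ω₁` and forces diamond. (2) Diamond implies that there is a
space `X` such that for every perfectly normal compact Hausdorff space `Y` the sum `X ⊕ Y` is a
perfectly normal compact Hausdorff space that is not hereditarily Grothendieck. (3) Martin's axiom
for `ω₁` dense sets implies that all perfectly normal compact Hausdorff spaces are hereditarily
Grothendieck. -/
theorem result :
    (∃ (P : Type) (_ : Preorder P), Nonempty P ∧ ∀ p : P,
      p ∈ OmegaOnePreserved P ∧ p ∈ DiamondHolds P) ∧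
    (Diamond → ∃ (X : Type) (_ : TopologicalSpace X),
      ∀ (Y : Type) [TopologicalSpace Y], CompactSpace Y → T2Space Y → PerfectlyNormalSpace Y →
        CompactSpace (X ⊕ Y) ∧ T2Space (X ⊕ Y) ∧ PerfectlyNormalSpace (X ⊕ Y) ∧
        ¬ HereditarilyGrothendieck (X ⊕ Y)) ∧
    (MAOmegaOne → ∀ (X : Type) (_ : TopologicalSpace X), CompactSpace X → T2Space X →
      PerfectlyNormalSpace X → HereditarilyGrothendieck X) := by
  refine ⟨Independence.result.1, fun h => ?_, Independence.result.2.2⟩
  obtain ⟨X, _, h1, h2, h3, h4⟩ := Independence.result.2.1 h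
  exact ⟨X, inferInstance, fun Y _ _ _ _ =>
    ⟨inferInstance, inferInstance, pn_sum, not_hg h4⟩⟩

end Pool.Agent.Results.MP_3e0795_gt.ClopenSummands
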